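import Mathlib
import Pool.Agent.Work.MP_b296c2_gt.Main

namespace Pool.Agent.Results.MP_b296c2_gt.SymTensorBochner

open Pool.Agent.Work.MP_b296c2_gt

/-- Let `V` be an `n`-dimensional Euclidean space (a tangent space of a Riemannian manifold),
`n ≥ 2`, let `p ≥ 1`, and let `R` be an algebraic curvature tensor on `V` with
`⌊(n+p-2)/p⌋`-nonnegative sectional curvature. Then the curvature term `K(R, Sym^p)` of the
Bochner formula is nonnegative on symmetric `p`-tensors. -/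
theorem result (n p : ℕ) (hn : 2 ≤ n) (hp : 1 ≤ p)
    {V : Type*} [NormedAddCommGroup V] [InnerProductSpace ℝ V]
    (R : V →ₗ[ℝ] V →ₗ[ℝ] V →ₗ[ℝ] V) (hR : IsCurvatureTensor R)
    (hsec : KNonnegSec n ((n + p - 2) / p) R)
    (e : OrthonormalBasis (Fin n) ℝ V)
    (φ : MultilinearMap ℝ (fun _ : Fin p => V) ℝ) (hφ : IsSymmTensor φ) :
    0 ≤ tensorInner e (bochnerTerm e R φ) φ := by
  obtain ⟨m, rfl⟩ : ∃ m, n = m + 1 := ⟨n - 1, by omega⟩
  have hk : 1 ≤ (m + 1 + p - 2) / p := by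
    rw [Nat.one_le_div_iff (by omega)]; omega
  have hmul : (m + 1 + p - 2) / p * p ≤ m + 1 + p - 2 := Nat.div_mul_le_self _ _
  refine bochner_nonneg e hR hk hsec ?_ φ hφ
  rw [Nat.sub_mul]
  omega

end Pool.Agent.Results.MP_b296c2_gt.SymTensorBochner
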